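import Mathlib
import Pool.Agent.W676.KS.Abs

/-!
Three-paving of projections with diagonal 1/2 (MP_2fb14c_an): definitions and the statements of the
parts.  `U = I x Fin 3` : three copies of the index set.
-/

set_option autoImplicit false

namespace Pool.Agent.W698.PV

open Finset H990SF
open scoped ComplexOrder

/-! ### Analysis of two variables -/

/-- value of a polynomial of degree `m` in `x` whose coefficients are polynomials in `y` -/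
noncomputable def ev (m : ℕ) (q : ℕ → Polynomial ℝ) (x y : ℂ) : ℂ :=
  ∑ a ∈ range (m + 1), Polynomial.aeval y (q a) * x ^ a

/-- hyperbolicity in all directions above the roots -/
def HYP : Prop :=
  ∀ (m n : ℕ) (q : ℕ → Polynomial ℝ), (∀ a ≤ m, (q a).natDegree ≤ n) → (q m).coeff n ≠ 0 →
    (∀ x y : ℂ, 0 < x.im → 0 < y.im → ev m q x y ≠ 0) →
    (∀ x y : ℝ, 0 ≤ x → 0 ≤ y → ev m q x y ≠ 0) →
    ∀ X0 : ℝ, (∀ x : ℝ, X0 ≤ x → ev m q x 0 ≠ 0) →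
    ∀ α β : ℝ, ev m q (X0 + α * Complex.I) (β * Complex.I) ≠ 0

/-- the polynomial of degree 3 in both variables with coefficients `c a b` -/
noncomputable def G (c : ℕ → ℕ → ℝ) (x y : ℂ) : ℂ :=
  ∑ a ∈ range 4, ∑ b ∈ range 4, (c a b : ℂ) * x ^ a * y ^ b

/-- positive coefficients, stable, the leading coefficient in `x` is stable -/
structure Biv (c : ℕ → ℕ → ℝ) : Prop where
  pos : ∀ a < 4, ∀ b < 4, 0 < c a b
  st : ∀ x y : ℂ, 0 < x.im → 0 < y.im → G c x y ≠ 0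
  top : ∀ y : ℂ, 0 < y.im → ∑ b ∈ range 4, (c 3 b : ℂ) * y ^ b ≠ 0

/-- second order information at `y = 0` on the roots `-t_k(y)` of `G(., y)` -/
def JETS : Prop :=
  ∀ c : ℕ → ℕ → ℝ, Biv c → ∃ t1 t2 t3 s1 s2 s3 δ : ℝ,
    0 < t1 ∧ t1 ≤ t2 ∧ t2 ≤ t3 ∧ 0 ≤ s1 ∧ 0 ≤ s2 ∧ 0 ≤ s3 ∧ 0 ≤ δ ∧
    c 2 0 = c 3 0 * (t1 + t2 + t3) ∧
    c 1 0 = c 3 0 * (t1 * t2 + t1 * t3 + t2 * t3) ∧
    c 0 0 = c 3 0 * (t1 * t2 * t3) ∧
    c 2 1 = c 3 0 * (s1 + s2 + s3) + c 3 1 * (t1 + t2 + t3) ∧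
    c 0 1 = c 3 0 * (s1 * t2 * t3 + s2 * t1 * t3 + s3 * t1 * t2) + c 3 1 * (t1 * t2 * t3) ∧
    c 2 2 = c 3 2 * (t1 + t2 + t3) + c 3 1 * (s1 + s2 + s3) - δ ∧
    c 0 2 ≤ c 3 2 * (t1 * t2 * t3) + c 3 1 * (s1 * t2 * t3 + s2 * t1 * t3 + s3 * t1 * t2)
      + c 3 0 * (s1 * s2 * t3 + s1 * s3 * t2 + s2 * s3 * t1) - t1 * t2 * δ

/-- the invariant: `r0 + r1 x + r2 x^2 + r3 x^3` -/
def InvC (r0 r1 r2 : ℝ) : Prop := 2 * r1 ≤ 3 * r0 ∧ 0 ≤ 33 * r0 - 32 * r1 + 20 * r2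

/-- the key inequality in two variables -/
def KI : Prop :=
  ∀ c : ℕ → ℕ → ℝ, Biv c → InvC (c 0 0) (c 1 0) (c 2 0) → InvC (c 0 0) (c 0 1) (c 0 2) →
    ∀ κ : ℝ, κ ≤ 101 / 100 →
      InvC (c 2 0 - 3 * κ * c 3 0) (c 2 1 - 3 * κ * c 3 1) (c 2 2 - 3 * κ * c 3 2)

/-! ### The region of the invariant -/

/-- product inequality -/
def PI3 : Prop :=
  ∀ t1 t2 t3 d x1 x2 x3 : ℝ, 0 < t1 → t1 ≤ t2 → t2 ≤ t3 → 0 ≤ d →
    t1 ≤ x1 → t1 ≤ x2 → t1 ≤ x3 → t1 + t2 ≤ x1 + x2 → t1 + t2 ≤ x1 + x3 → t1 + t2 ≤ x2 + x3 →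
    x1 + x2 + x3 = t1 + t2 + t3 + d → t1 * t2 * (t3 + d) ≤ x1 * x2 * x3

/-- the region inequality -/
def REG : Prop :=
  ∀ t1 t2 t3 : ℝ, 0 < t1 → 0 < t2 → 0 < t3 →
    InvC (t1 * t2 * t3) (t1 * t2 + t1 * t3 + t2 * t3) (t1 + t2 + t3) →
    6 ≤ t1 + t2 + t3 ∧
    3 * (t1 + t2 + t3) - 6 + (t1 + t2 + t3 - 6) / 20 ≤ t1 * t2 + t1 * t3 + t2 * t3

/-- consequences of the region inequality (`V = v1+v2+v3`, `W = t1+t2+t3-3κ`) -/
def QF : Prop :=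
  ∀ t1 t2 t3 : ℝ, 0 < t1 → t1 ≤ t2 → t2 ≤ t3 →
    InvC (t1 * t2 * t3) (t1 * t2 + t1 * t3 + t2 * t3) (t1 + t2 + t3) →
    ∀ κ : ℝ, κ ≤ 101 / 100 → 3 * κ ≤ t1 + t2 ∧
    ∀ v1 v2 v3 : ℝ, 0 ≤ v1 → 0 ≤ v2 → 0 ≤ v3 → v1 + v2 + v3 ≤ 3 / 2 →
      2 * (t1 + t2 + t3 - 3 * κ) * (v1 * v2 + v1 * v3 + v2 * v3) ≤
      (1 / 5 + 2 * (v1 + v2 + v3)) *
        ((t1 + t2 + t3 - 3 * κ) * (v1 + v2 + v3) - (t1 * v1 + t2 * v2 + t3 * v3))

/-! ### Several variables -/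

section
variable {I : Type} [DecidableEq I]

/-- closed upper half plane without the negative real axis -/
def Hp (z : ℂ) : Prop := 0 < z.im ∨ (z.im = 0 ∧ 0 ≤ z.re)

/-- iterated derivative -/
def pdL (L : List (I × Fin 3)) (F : (I × Fin 3 → ℂ) → ℂ) : (I × Fin 3 → ℂ) → ℂ :=
  L.foldr (fun u f => pd u f) F

/-- the class of functions: multi-affine, real, all the derivatives in the directions of the sites
of `S` have no zero on `Hp ^ U`, positive at `0` -/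
structure Nice (S : Set I) (F : (I × Fin 3 → ℂ) → ℂ) : Prop where
  ma : MA F
  re : RealOn F
  nv : ∀ L : List (I × Fin 3), L.Nodup → (∀ u ∈ L, u.1 ∈ S) →
    ∀ z : I × Fin 3 → ℂ, (∀ u, Hp (z u)) → pdL L F z ≠ 0
  pos : 0 < (F 0).re

/-- second elementary symmetric polynomial of the three derivatives of the site `i` -/
def e2 (i : I) (F : (I × Fin 3 → ℂ) → ℂ) : (I × Fin 3 → ℂ) → ℂ := fun z =>
  pd (i, 0) (pd (i, 1) F) z + pd (i, 0) (pd (i, 2) F) z + pd (i, 1) (pd (i, 2) F) z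

/-- put all the variables of the site `i` equal to `a` -/
def spec (i : I) (a : ℂ) (z : I × Fin 3 → ℂ) : I × Fin 3 → ℂ :=
  fun u => if u.1 = i then a else z u

/-- the processing of the site `i` -/
def Lk (i : I) (κ : ℝ) (F : (I × Fin 3 → ℂ) → ℂ) : (I × Fin 3 → ℂ) → ℂ :=
  fun z => e2 i F (spec i (-(κ : ℂ)) z)

/-- coefficients of `x ↦ F (spec i x z)` -/
def R0 (i : I) (F : (I × Fin 3 → ℂ) → ℂ) : (I × Fin 3 → ℂ) → ℂ := fun z => F (spec i 0 z)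
def R1 (i : I) (F : (I × Fin 3 → ℂ) → ℂ) : (I × Fin 3 → ℂ) → ℂ := fun z =>
  pd (i, 0) F (spec i 0 z) + pd (i, 1) F (spec i 0 z) + pd (i, 2) F (spec i 0 z)
def R2 (i : I) (F : (I × Fin 3 → ℂ) → ℂ) : (I × Fin 3 → ℂ) → ℂ := fun z => e2 i F (spec i 0 z)
def R3 (i : I) (F : (I × Fin 3 → ℂ) → ℂ) : (I × Fin 3 → ℂ) → ℂ := fun z =>
  pd (i, 0) (pd (i, 1) (pd (i, 2) F)) (spec i 0 z)

/-- the invariant at the site `i` -/
def Inv (i : I) (F : (I × Fin 3 → ℂ) → ℂ) : Prop :=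
  InvC (R0 i F 0).re (R1 i F 0).re (R2 i F 0).re

/-- iterated `e2` -/
def E2L (L : List I) (F : (I × Fin 3 → ℂ) → ℂ) : (I × Fin 3 → ℂ) → ℂ :=
  L.foldr (fun i f => e2 i f) F

end

/-- closure of the class -/
def CLOS : Prop :=
  ∀ (I : Type) [Fintype I] [DecidableEq I] (S : Set I) (F : (I × Fin 3 → ℂ) → ℂ) (i : I) (κ : ℝ),
    Nice S F → i ∈ S → Inv i F → κ ≤ 101 / 100 → Nice (S \ {i}) (Lk i κ F)

/-- a function of the class restricted to two sites satisfies `Biv` -/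
def BIV : Prop :=
  ∀ (I : Type) [Fintype I] [DecidableEq I] (S : Set I) (F : (I × Fin 3 → ℂ) → ℂ) (i j : I),
    Nice S F → i ∈ S → j ∈ S → i ≠ j →
    ∃ c : ℕ → ℕ → ℝ, Biv c ∧
      (R0 i F 0).re = c 0 0 ∧ (R1 i F 0).re = c 1 0 ∧ (R2 i F 0).re = c 2 0 ∧
      (R0 j F 0).re = c 0 0 ∧ (R1 j F 0).re = c 0 1 ∧ (R2 j F 0).re = c 0 2 ∧
      ∀ κ : ℝ, (R0 j (Lk i κ F) 0).re = c 2 0 - 3 * κ * c 3 0 ∧
        (R1 j (Lk i κ F) 0).re = c 2 1 - 3 * κ * c 3 1 ∧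
        (R2 j (Lk i κ F) 0).re = c 2 2 - 3 * κ * c 3 2

/-- conclusion of the barrier argument -/
def BARR : Prop :=
  ∀ (I : Type) [Fintype I] [DecidableEq I] (F : (I × Fin 3 → ℂ) → ℂ),
    Nice Set.univ F → (∀ i, Inv i F) →
    ∀ x : I × Fin 3 → ℝ, (∀ u, -(101 / 100) ≤ x u) →
      0 < (E2L (Finset.univ : Finset I).toList F (fun u => (x u : ℂ))).re

/-- the list of the derivatives of a selection -/
noncomputable def dirs {I : Type} [DecidableEq I] [Fintype I] (φ : I → Fin 3) : List (I × Fin 3) :=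
  (Finset.univ.filter (fun u : I × Fin 3 => u.2 ≠ φ u.1)).toList

/-- selection -/
def SEL : Prop :=
  ∀ (I : Type) [Fintype I] [DecidableEq I] (F : (I × Fin 3 → ℂ) → ℂ), Nice Set.univ F →
    (∀ x : I × Fin 3 → ℝ, (∀ u, -(101 / 100) ≤ x u) →
      0 < (E2L (Finset.univ : Finset I).toList F (fun u => (x u : ℂ))).re) →
    ∃ φ : I → Fin 3, ∀ x : I × Fin 3 → ℝ, (∀ u, -(101 / 100) ≤ x u) →
      0 < (pdL (dirs φ) F (fun u => (x u : ℂ))).re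

/-- the determinant function of a positive definite matrix -/
noncomputable def FA {I : Type} [Fintype I] [DecidableEq I] (A : Matrix I I ℂ) (z : I × Fin 3 → ℂ) : ℂ :=
  ∏ k : Fin 3, (A + Matrix.diagonal (fun i => z (i, k))).det

/-- the determinant function is in the class and satisfies the invariants -/
def DETN : Prop :=
  ∀ (I : Type) [Fintype I] [DecidableEq I] (A : Matrix I I ℂ), A.PosDef →
    (∀ i, A⁻¹ i i = 1 / 2) → Nice Set.univ (FA A) ∧ ∀ i, Inv i (FA A)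

/-- reading off the lower bound -/
def DETX : Prop :=
  ∀ (I : Type) [Fintype I] [DecidableEq I] (A : Matrix I I ℂ), A.PosDef → ∀ φ : I → Fin 3,
    (∀ x : I × Fin 3 → ℝ, (∀ u, -(101 / 100) ≤ x u) →
      0 < (pdL (dirs φ) (FA A) (fun u => (x u : ℂ))).re) →
    ∀ (k : Fin 3) (ξ : I → ℂ), (∀ i, φ i ≠ k → ξ i = 0) →
      101 / 100 * ∑ i, ‖ξ i‖ ^ 2 ≤ (star ξ ⬝ᵥ A.mulVec ξ).re

/-- the frame statement from the matrix statement -/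
def MAT : Prop :=
  ∀ (I : Type) [Fintype I] [DecidableEq I] (A : Matrix I I ℂ), A.PosDef →
    (∀ i, A⁻¹ i i = 1 / 2) → ∃ φ : I → Fin 3, ∀ (k : Fin 3) (ξ : I → ℂ),
      (∀ i, φ i ≠ k → ξ i = 0) → 101 / 100 * ∑ i, ‖ξ i‖ ^ 2 ≤ (star ξ ⬝ᵥ A.mulVec ξ).re

/-- the frozen statement with explicit constants -/
def FRAME : Prop :=
  ∀ (n M : ℕ) (u : Fin M → EuclideanSpace ℂ (Fin n)),
    (∀ i, ‖u i‖ = 1) →
    (∀ x : EuclideanSpace ℂ (Fin n), ∑ i, ‖(inner ℂ (u i) x : ℂ)‖ ^ 2 = 2 * ‖x‖ ^ 2) →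
    ∃ f : Fin M → Fin 3, ∀ (j : Fin 3) (c : Fin M → ℂ),
      (1 / 20000 : ℝ) * ∑ i ∈ Finset.univ.filter (fun i => f i = j), ‖c i‖ ^ 2
          ≤ ‖∑ i ∈ Finset.univ.filter (fun i => f i = j), c i • u i‖ ^ 2 ∧
      ‖∑ i ∈ Finset.univ.filter (fun i => f i = j), c i • u i‖ ^ 2
          ≤ 2 * ∑ i ∈ Finset.univ.filter (fun i => f i = j), ‖c i‖ ^ 2

end Pool.Agent.W698.PV
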