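import Pool.Agent.W698.PV.Defs

set_option autoImplicit false

namespace Pool.Agent.W698.PV

open Finset

/-- the coefficient of `x^a`, a polynomial in `y` -/
noncomputable def gc (c : ℕ → ℕ → ℝ) (a : ℕ) (y : ℂ) : ℂ := ∑ b ∈ range 4, (c a b : ℂ) * y ^ b

/-- for real `y ≥ 0` the polynomial `G c · y` has three negative roots `-t_k` -/
def REALR : Prop :=
  ∀ c : ℕ → ℕ → ℝ, Biv c → ∀ y : ℝ, 0 ≤ y → ∃ t1 t2 t3 : ℝ, 0 < t1 ∧ t1 ≤ t2 ∧ t2 ≤ t3 ∧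
    gc c 2 y = gc c 3 y * ((t1 : ℂ) + t2 + t3) ∧
    gc c 1 y = gc c 3 y * ((t1 : ℂ) * t2 + t1 * t3 + t2 * t3) ∧
    gc c 0 y = gc c 3 y * ((t1 : ℂ) * t2 * t3)

/-- majorisation: the roots `-z_k` of `G c · (iβ)` against the roots `-t_k` of `G c · 0` -/
def MAJ : Prop :=
  ∀ c : ℕ → ℕ → ℝ, Biv c → ∀ t1 t2 t3 : ℝ, 0 < t1 → t1 ≤ t2 → t2 ≤ t3 →
    c 2 0 = c 3 0 * (t1 + t2 + t3) → c 1 0 = c 3 0 * (t1 * t2 + t1 * t3 + t2 * t3) →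
    c 0 0 = c 3 0 * (t1 * t2 * t3) →
    ∀ β : ℝ, 0 < β → ∃ z1 z2 z3 : ℂ,
      gc c 2 (β * Complex.I) = gc c 3 (β * Complex.I) * (z1 + z2 + z3) ∧
      gc c 1 (β * Complex.I) = gc c 3 (β * Complex.I) * (z1 * z2 + z1 * z3 + z2 * z3) ∧
      gc c 0 (β * Complex.I) = gc c 3 (β * Complex.I) * (z1 * z2 * z3) ∧
      0 ≤ z1.im ∧ 0 ≤ z2.im ∧ 0 ≤ z3.im ∧
      t1 ≤ z1.re ∧ t1 ≤ z2.re ∧ t1 ≤ z3.re ∧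
      t1 + t2 ≤ z1.re + z2.re ∧ t1 + t2 ≤ z1.re + z3.re ∧ t1 + t2 ≤ z2.re + z3.re ∧
      t1 + t2 + t3 ≤ z1.re + z2.re + z3.re

end Pool.Agent.W698.PV
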