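import Pool.Agent.W698.PV.Defs2

set_option autoImplicit false

namespace Pool.Agent.W698.PV

open Finset H990SF
open scoped ComplexOrder

/-- the matrix of the copy `k` after the derivatives of `L` -/
noncomputable def ML {I : Type} [DecidableEq I] (A : Matrix I I ℂ) (L : List (I × Fin 3)) (k : Fin 3)
    (z : I × Fin 3 → ℂ) : Matrix I I ℂ :=
  Matrix.of fun i j => if (i, k) ∈ L then (if i = j then 1 else 0)
    else (A + Matrix.diagonal (fun i => z (i, k))) i j

/-- the derivatives of the determinant function -/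
def DETP : Prop :=
  ∀ (I : Type) [Fintype I] [DecidableEq I] (A : Matrix I I ℂ) (L : List (I × Fin 3)), L.Nodup →
    ∀ z : I × Fin 3 → ℂ, pdL L (FA A) z = ∏ k : Fin 3, (ML A L k z).det

/-- the choice step for real multi-affine functions -/
def CHO : Prop :=
  ∀ (U : Type) [Fintype U] [DecidableEq U] (H : (U → ℝ) → ℝ) (u v w : U) (a : U → ℝ),
    u ≠ v → u ≠ w → v ≠ w → W676.KS.Aff H →
    W676.KS.Ray (W676.KS.D u (W676.KS.D v H)) → W676.KS.Ray (W676.KS.D u (W676.KS.D w H)) →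
    W676.KS.Ray (W676.KS.D v (W676.KS.D w H)) →
    (∃ M : U → ℝ, ∀ x, M ≤ x → 0 < W676.KS.D u (W676.KS.D v (W676.KS.D w H)) x) →
    (∀ x, a ≤ x → 0 < W676.KS.D u (W676.KS.D v H) x + W676.KS.D u (W676.KS.D w H) x +
      W676.KS.D v (W676.KS.D w H) x) →
    (∀ x, a ≤ x → 0 < W676.KS.D u (W676.KS.D v H) x) ∨
    (∀ x, a ≤ x → 0 < W676.KS.D u (W676.KS.D w H) x) ∨
    (∀ x, a ≤ x → 0 < W676.KS.D v (W676.KS.D w H) x)

/-- positivity of all the derivatives at the real points of the positive orthant -/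
def POSL : Prop :=
  ∀ (I : Type) [Fintype I] [DecidableEq I] (S : Set I) (F : (I × Fin 3 → ℂ) → ℂ), Nice S F →
    ∀ L : List (I × Fin 3), L.Nodup → (∀ u ∈ L, u.1 ∈ S) →
    ∀ x : I × Fin 3 → ℝ, (∀ u, 0 ≤ x u) → 0 < (pdL L F (fun u => (x u : ℂ))).re

/-- nonvanishing on the open upper half plane -/
structure UH {I : Type} [DecidableEq I] (S : Set I) (F : (I × Fin 3 → ℂ) → ℂ) : Prop where
  ma : MA F
  re : RealOn F
  nv : ∀ L : List (I × Fin 3), L.Nodup → (∀ u ∈ L, u.1 ∈ S) →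
    ∀ z : I × Fin 3 → ℂ, (∀ u, 0 < (z u).im) → pdL L F z ≠ 0

/-- `e2` preserves stability -/
def E2ST : Prop :=
  ∀ (I : Type) [Fintype I] [DecidableEq I] (S : Set I) (F : (I × Fin 3 → ℂ) → ℂ) (i : I),
    UH S F → i ∈ S → UH (S \ {i}) (e2 i F)

end Pool.Agent.W698.PV
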